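import Pool.Agent.X333.MS.Main
import Pool.Agent.TH710.ND.Sp

/-!
MP_1209e6_ag, Q1: special and Brody-special varieties given by nested sums of high powers of
monomials.
-/

set_option autoImplicit false

open Pool.Agent.W602.GT Pool.Agent.TH710.ND Pool.Agent.X333.MS

namespace Pool.Agent.Results.MP_1209e6_ag.NestedMonomialSpecial

/-- Let `V` be an irreducible component of the open part `x_j ≠ 0` (`j` in `U`, for example all of
it if `U` is empty) of a complex projective variety given by forms which are nested sums of high
powers of monomials. The following are equivalent: `V` is special in the sense of Campana; there is a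
holomorphic map from the complex plane to `V` with Zariski-dense image; the closure of `V` is the
closure of an orbit of a torus of diagonal matrices. -/
theorem result {n : ℕ} {ι : Type} {U : Set (Fin (n + 1))}
    {F : ι → MvPolynomial (Fin (n + 1)) ℂ} {s N h : ℕ}
    (hF : ∀ e, IsForm (F e) ∧ NestedIn IsMono s N h (F e))
    (hN : (n + 1) * ((h + 1) * (2 * s + 1) ^ 5) ≤ N) {K : Type} [Field K] [Algebra ℂ K] {w : ℕ}
    {y : Fin (n + 1) → K} (hy : SubVarU U F K w y) (hcomp : IsComponentU U F y) :
    [Special ℂ K w (OffU U y), BrodySpecial U y, TorusOrbit ℂ w y].TFAE :=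
  special_tfae hF (bnd_le hN).1 (bnd_le hN).2.1 hy hcomp

end Pool.Agent.Results.MP_1209e6_ag.NestedMonomialSpecial
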