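import Pool.Agent.TH710.SP.Res

/-!
MP_1209e6_ag, Q1: special and Brody-special varieties given by nested sums of high powers of linear
forms.
-/

set_option autoImplicit false

open Pool.Agent.W602.GT Pool.Agent.W603.GW Pool.Agent.W603.GX Pool.Agent.TH710.ND
  Pool.Agent.TH710.SP

namespace Pool.Agent.Results.MP_1209e6_ag.NestedOpenSpecial

/-- Let `V` be an irreducible component of the quasi-projective variety
`{F_i = 0 for all i, Q_j ≠ 0 for all j}` in `P^n`, `n ≥ 1`, where the `F_i` and the finitely many
`Q_j` (perhaps none, then `V` is projective) are nested sums of high powers of linear forms. The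
following are equivalent: `V` is special in the sense of Campana; there is a holomorphic map from the
complex plane to `V` with Zariski-dense image; the closure of `V` is a linear space, and `V` is the
complement in it of hyperplanes which are linearly independent (the `Q_j` are multiples of powers of
linear forms which are linearly independent on `V`). -/
theorem result {n : ℕ} (hn : 1 ≤ n) {ι κ : Type} [Finite κ]
    {F : ι → MvPolynomial (Fin (n + 1)) ℂ} {Q : κ → MvPolynomial (Fin (n + 1)) ℂ} {s N H : ℕ}
    (hF : ∀ i, IsNested s N H (F i)) (hQ : ∀ j, IsNested s N H (Q j))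
    (hN : n * ((H + 1) * (2 * s * (2 * s)) * ((2 * s + 1) *
      ((2 * s - 1) * (2 * s - 2) / 2))) + 1 ≤ N)
    {K : Type} [Field K] [Algebra ℂ K] {w : ℕ} {y : Fin (n + 1) → K}
    (hy : SubVarQ F Q K w y) (hcomp : IsComponentQ F Q y) :
    [Special ℂ K w (OffAny Q y), ∃ f, DenseCurve Q y f, LinearComplement Q y].TFAE :=
  special_tfae hn hF hQ (Pool.Agent.TH710.SP.bnd_le hN) hy hcomp

end Pool.Agent.Results.MP_1209e6_ag.NestedOpenSpecial
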