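import Mathlib
import Pool.Agent.X332.DL.Sp

/-!
# Entire curves with difference equations, generic sequences and special varieties

A *dilation curve* (`DilCurve`) is an entire curve `z ↦ φ(z)` in a projective space such that for some
`q ≠ 0` which is not a root of unity the point `φ(q z)` is the image of `φ(z)` under a rational map;
examples are the entire curves whose coordinates satisfy `q`-difference equations (pass to the curve
with the coordinates `f(z), f(q z), …, f(q^r z)`), the Poincaré functions of the rational self-maps of
projective varieties, and the curves `z ↦ exp(z v)` in abelian varieties and tori (`q = 2`). A *group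
curve* (`GroupCurve`) is an entire curve such that for each `t` the translate `φ(z + t)` is the image
of `φ(z)` under a rational map, for example the curve `z ↦ exp(z v) g` in a compactification of an
algebraic group. We prove, for every complex projective variety `Z`: if the image of a curve of one
of these kinds under a rational map is Zariski dense in `Z`, then there is a generic sequence of
points of `Z` with coordinates in a finitely generated field of sequences (stable under the shift),
and if there is such a sequence then `Z` is special.

For the closed subvarieties `Z` of the variety of the vectors `x` in `ℙ^N` for which there is a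
polynomial `H` of degree at most `n` with `x i ^ m = H (a i)` for all `i` (`PowVal a n m`; for `m = 2`
these are the varieties of Büchi's problem for `n = 2`), where `n < 2 m`, these conditions are
equivalent: `Z` is special if and only if there is a Zariski-dense entire curve in `Z`, and then there
is one of each of these kinds.

`K` is the function field, `w` the dimension and `y` the generic point of `Z`, in homogeneous
coordinates. `CSpecial ℂ K w` is Campana's definition by fibrations: there is no rational map from `Z`
onto a variety of positive dimension whose orbifold base is of general type. If the map is given by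
the subfield `E` of `K`, of transcendence degree `e`, the latter means (`OrbGT`) that for some `N > 0`
there are sections `f_i (dy_1 ∧ … ∧ dy_e) ^ N`, regular at all prime divisors of all models of `Z`
(`PReg`), where `y_1, …, y_e` are algebraically independent elements of `E`, whose ratios are `e`
algebraically independent elements of `E`. `Special ℂ K w (OffU ∅ y)` is Campana's definition by
Bogomolov sheaves (with empty boundary).
-/

set_option autoImplicit false

namespace Pool.Agent.Results.MP_1209e6_ag.SelfSimilarSpecial

open Pool.Agent.W602.GT Pool.Agent.Y190.BV Pool.Agent.X332.GS Pool.Agent.X332.SP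
  Pool.Agent.X332.DL
open Pool.Agent.Y216.SV (DenseCurve)
open Pool.Agent.TH710.SP (IsLinear)

/-- (1) Let `Z` be an integral closed subvariety of the complex projective space, of dimension `w`,
with function field `K` and generic point `y`. If `Z` contains a Zariski dense image of a group curve
or of a dilation curve then `Z` contains a generic sequence of points with coordinates in a finitely
generated field of coefficients, and if `Z` contains such a sequence then `Z` is special.

(2) Let `a 0, ..., a N` be distinct complex numbers, `m ≥ 2`, `n < 2 m` and
`4 n + (n + 1) ^ 2 < 2 (N + 1)`, and let `V` be a closed subset of the variety of the vectors whose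
`m`-th powers are the values of a polynomial of degree at most `n` at the `a i`. For a closed
subvariety `Z` of `V` of positive dimension the following are equivalent: `Z` is special (in the sense
of Bogomolov sheaves); `Z` is special (in the sense of fibrations); `Z` dominates no variety of
positive dimension of general type; `Z` contains a Zariski-dense entire curve; `Z` contains a Zariski
dense image of a group curve; `Z` contains a Zariski dense image of a dilation curve; `Z` contains a
generic sequence of points with coordinates in a finitely generated field of coefficients; `Z`
contains a generic sequence of points with coordinates which satisfy linear recurrences over a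
tower; `Z` is a linear subspace. -/
theorem result :
    (∀ (n : ℕ) (K : Type) [Field K] [Algebra ℂ K] (w : ℕ) (y : Fin (n + 1) → K), y ≠ 0 →
      coords ℂ y = ⊤ → Algebra.trdeg ℂ K = w →
      (DenseGroup y ∨ DenseDil y → HasGenSeq y) ∧ (HasGenSeq y → CSpecial ℂ K w)) ∧
    ∀ (N n m : ℕ), 2 ≤ m → n < 2 * m → 4 * n + (n + 1) ^ 2 < 2 * (N + 1) →
      ∀ a : Fin (N + 1) → ℂ, Function.Injective a →
      ∀ (ι : Type) (F : ι → MvPolynomial (Fin (N + 1)) ℂ), Cone F ⊆ PowVal a n m →
      ∀ (K : Type) [Field K] [Algebra ℂ K] (w : ℕ) (y : Fin (N + 1) → K), 1 ≤ w →
      SubVar F K w y →
      [Special ℂ K w (OffU ∅ y), CSpecial ℂ K w, NoGeneralImages K w, ∃ f, DenseCurve ∅ y f,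
        DenseGroup y, DenseDil y, HasGenSeq y, HasTowerSeq y, IsLinear ℂ y].TFAE := by
  refine ⟨fun n K _ _ w y hy hgen hw => ⟨?_, cspecial_of_hasGen hw hy hgen⟩, ?_⟩
  · rintro (h | h)
    · exact gen_of_grp h
    · exact gen_of_dil h
  intro N n m hm hnm hN a ha ι F hV K _ _ w y hw hy
  have hn : n ≤ N := by nlinarith
  have hcone : ∀ {κ : Type} (G : κ → MvPolynomial (Fin (N + 1)) ℂ),
      ConeU (∅ : Set (Fin (N + 1))) G = Cone G := by
    intro κ G
    ext x
    exact ⟨fun h => ⟨h.1, h.2.2⟩, fun h => ⟨h.1, fun j hj => absurd hj (Set.notMem_empty j), h.2⟩⟩
  have hsub : ConeU (∅ : Set (Fin (N + 1))) F ⊆ Cone (buchi a n m) := by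
    rw [cone_buchi ha hn, hcone]
    exact hV
  refine powval_tfae2 hm hnm hN ha hw ⟨hy.ne, ?_, hy.gen, hy.dim⟩
  exact Pool.Agent.Y190.QP.sub_extU hsub hy.ne (fun j hj => absurd hj (Set.notMem_empty j)) hy.mem

end Pool.Agent.Results.MP_1209e6_ag.SelfSimilarSpecial
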