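import Mathlib
import Pool.Agent.X316.ZU.Main

/-!
MP_1209e6_ag, Q1, the implication from (ii) to (i): a projective variety is unirational if and only
if it has a Zariski-dense entire curve whose homogeneous coordinates are polynomials in the Riemann
zeta function and its derivatives, or in the derivatives of the functions of any jointly universal
family; then it is special and has no holomorphic tensor differentials.
-/

set_option autoImplicit false

namespace Pool.Agent.Results.MP_1209e6_ag.ZetaSpecial

open Filter MvPolynomial
open scoped LinearAlgebra.Projectivization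
open Pool.Agent.TH143.EL (HolMap Rep InV)
open Pool.Agent.TH143.GT (FunField)
open Pool.Agent.W602.GT (IsForm)
open Pool.Agent.TH8.TEN (HolTensor Special)
open Pool.Agent.TH8.UNI (Unirational)
open Pool.Agent.X316.ZG (JointlyUniversal dring)

/-- The projective variety with the ideal `p` contains a Zariski-dense entire curve such that the
ratios of the homogeneous coordinates are the ratios of the functions `h j` in the ring of the
polynomials in the functions `u j` and their derivatives. -/
def HasUniversalCurve {N : ℕ} {ι : Type} (u : ι → ℂ → ℂ)
    (p : Ideal (MvPolynomial (Fin (N + 1)) ℂ)) : Prop :=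
  ∃ f : ℂ → ℙ ℂ (Fin (N + 1) → ℂ), HolMap f ∧
    (∃ h : Fin (N + 1) → ℂ → ℂ, (∀ j, h j ∈ dring u) ∧
      ∀ᶠ z in codiscrete ℂ, Rep (f z) fun j => h j z) ∧
    (∀ z, InV p (f z)) ∧
    ∀ G : MvPolynomial (Fin (N + 1)) ℂ, IsForm G → (∀ z, eval (f z).rep G = 0) → G ∈ p

/-- Let `X` be the projective variety with the ideal `p`, the function field `K`, the dimension `w`
and the generic point `y`. The following are equivalent: `X` is unirational; `X` has a Zariski-dense
entire curve given by polynomials in the zeta function and its derivatives; the same for some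
jointly universal family; the same for every (nonempty) jointly universal family. If they hold then
all tensor differentials on the smooth projective models of `X` vanish, and `X` is special. -/
theorem result :
    (∀ (N : ℕ) (p : Ideal (MvPolynomial (Fin (N + 1)) ℂ)) (K : Type) [Field K] [Algebra ℂ K]
      (w : ℕ) (y : Fin (N + 1) → K), FunField p 1 K w y →
      List.TFAE [Unirational K,
        HasUniversalCurve (fun _ : Unit => riemannZeta) p,
        ∃ (ι : Type) (u : ι → ℂ → ℂ), JointlyUniversal u ∧ HasUniversalCurve u p,
        ∀ (ι : Type) (u : ι → ℂ → ℂ), Nonempty ι → JointlyUniversal u → HasUniversalCurve u p] ∧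
      ((∃ (ι : Type) (u : ι → ℂ → ℂ), JointlyUniversal u ∧ HasUniversalCurve u p) →
        (∀ q : ℕ, 0 < q → ∀ θ : MultilinearMap K (fun _ : Fin q => Derivation ℂ K K) K,
          HolTensor w θ → θ = 0) ∧ Special K w)) ∧
    JointlyUniversal fun _ : Unit => riemannZeta := by
  refine ⟨fun N p K _ _ w y hy => ?_, Pool.Agent.X316.ZG.zeta_universal⟩
  have h := Pool.Agent.X316.ZU.zeta_tfae hy
  refine ⟨?_, fun h1 => Pool.Agent.X316.ZU.special_of_unirational hy ((h.out 0 2).2 h1)⟩
  tfae_have 1 ↔ 2 := h.out 0 1
  tfae_have 1 ↔ 3 := h.out 0 2
  tfae_have 1 ↔ 4 := h.out 0 3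
  tfae_finish

end Pool.Agent.Results.MP_1209e6_ag.ZetaSpecial
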